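import Mathlib
import Pool.Agent.Helper461.HC.Defs
import Pool.Agent.Helper461.HC.Fin

/-!
A Hilbert plane that is not the interior of an ellipse, in which a parabolic conic is a quadric.
-/

namespace Pool.Agent.Results.MP_3498ef_gt.ParabolaQuadric

open Pool.Agent.Helper461.HC

/-- Sanity check: for distinct points of a Hilbert plane the exit point lies on the boundary
and the second point lies strictly between the first one and the exit point. -/
theorem exitPoint_spec {Ω : Set Plane} (hΩ : IsHilbertPlane Ω) {X Y : Plane} (hX : X ∈ Ω) (hY : Y ∈ Ω)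
    (hXY : X ≠ Y) : exitPoint Ω X Y ∈ frontier Ω ∧
      ∃ t : ℝ, 1 < t ∧ exitPoint Ω X Y = X + t • (Y - X) := by
  obtain ⟨h1, h2, h3⟩ := tau_spec hΩ hX hY hXY
  refine ⟨?_, tau Ω X Y, h1, rfl⟩
  rw [hΩ.isOpen.frontier_eq]
  exact ⟨h2, h3⟩

/-- Sanity check: the Hilbert distance vanishes exactly on the diagonal. -/
theorem hdist_eq_zero {Ω : Set Plane} (hΩ : IsHilbertPlane Ω) {X Y : Plane} (hX : X ∈ Ω) (hY : Y ∈ Ω) :
    hdist Ω X Y = 0 ↔ X = Y := by
  constructor
  · intro h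
    by_contra hne
    exact (hdist_pos hΩ hX hY hne).ne' h
  · rintro rfl
    rw [hdist_eq hΩ hX hX, funk_self hX]
    simp

/-- There are a Hilbert plane that is not the interior of an ellipse, a geodesic line `L` of it
and a focus `F` off `L` such that the parabolic conic of `F` and `L` is a quadric; in fact it is
nonempty and is the part in `Ω` of the ellipse `9 x² + 16 y² - 40 y + 16 = 0`. -/
theorem result : ∃ (Ω L : Set Plane) (F : Plane), IsHilbertPlane Ω ∧ ¬ IsEllipseInterior Ω ∧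
    IsGeodesicLine Ω L ∧ F ∈ Ω ∧ F ∉ L ∧ IsQuadric Ω (parabolicConic Ω F L) ∧
    (parabolicConic Ω F L).Nonempty ∧
    parabolicConic Ω F L =
      {X | X ∈ Ω ∧ 9 * X 0 ^ 2 + 16 * X 1 ^ 2 - 40 * X 1 + 16 = 0} := by
  obtain ⟨η, μ, hp⟩ := exists_par
  have heq : parabolicConic (OO η μ) FF (LL η μ) =
      {X | X ∈ OO η μ ∧ 9 * X 0 ^ 2 + 16 * X 1 ^ 2 - 40 * X 1 + 16 = 0} := by
    ext X
    constructor
    · rintro ⟨hX, he⟩
      exact ⟨hX, (conic_iff hp hX).mp (mul_left_cancel₀ (focus_pos hp).ne' he)⟩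
    · rintro ⟨hX, hq⟩
      refine ⟨hX, ?_⟩
      rw [(conic_iff hp hX).mpr hq]
  refine ⟨OO η μ, LL η μ, FF, hilbert_OO hp, ?_, line_eq hp, FF_mem hp, ?_, ?_, ?_, heq⟩
  · rintro ⟨a, b, c, d, e, g, -, -, h⟩
    exact not_quadratic hp a b c d e g h
  · rintro ⟨-, h⟩
    rw [FF1] at h
    norm_num at h
  · refine ⟨9, 0, 16, 0, -40, 16, Or.inl (by norm_num), ?_⟩
    rw [heq]
    ext X
    constructor
    · rintro ⟨hX, h⟩
      exact ⟨hX, by linarith⟩
    · rintro ⟨hX, h⟩
      exact ⟨hX, by linarith⟩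
  · rw [heq]
    refine ⟨pt 0 (1 / 2), simple_mem hp (by norm_num) (by norm_num) (by norm_num) (by norm_num), ?_⟩
    rw [pt_zero, pt_one]
    norm_num

end Pool.Agent.Results.MP_3498ef_gt.ParabolaQuadric
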